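import Mathlib
import Pool.Agent.H8.Omg1

/-! The omega involution mod 2 is `n`-transverse for every `n ≥ 1`. -/

namespace Pool.Agent.Results.MP_628479_al.Transverse

open MvPolynomial

/-- `R = F_2[e_1, e_2, ...]`; the variable `X k` is `e_(k+1)`. -/
abbrev R := MvPolynomial ℕ (ZMod 2)

/-- The elementary symmetric functions, `e_0 = 1`. -/
noncomputable def e : ℕ → R
  | 0 => 1
  | k + 1 => X k

/-- The complete homogeneous symmetric functions: `h_0 = 1` and
`∑_(i=0..k) e_i h_(k-i) = 0` for `k ≥ 1`. -/
noncomputable def h : ℕ → R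
  | 0 => 1
  | k + 1 => -∑ i : Fin (k + 1), e (i + 1) * h (k - i)
decreasing_by omega

/-- The ring map with `e_k ↦ h_k`. -/
noncomputable def om : R →ₐ[ZMod 2] R := aeval fun i => h (i + 1)

/-- The subring of invariants. -/
def S : Subring R where
  carrier := {x | om x = x}
  mul_mem' := fun {a b} ha hb => (map_mul om a b).trans (congrArg₂ (· * ·) ha hb)
  one_mem' := map_one om
  add_mem' := fun {a b} ha hb => (map_add om a b).trans (congrArg₂ (· + ·) ha hb)
  zero_mem' := map_zero om
  neg_mem' := fun {a} ha => (map_neg om a).trans (congrArg (- ·) ha)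

/-- The ideal `{x + om x}` of `S`. -/
def I : Ideal S where
  carrier := {s | ∃ x : R, (s : R) = x + om x}
  add_mem' := by
    rintro a b ⟨x, hx⟩ ⟨y, hy⟩
    exact ⟨x + y, by rw [Subring.coe_add, hx, hy, map_add]; ring⟩
  zero_mem' := ⟨0, by simp⟩
  smul_mem' := by
    rintro c a ⟨x, hx⟩
    have hc : om c = c := c.2
    exact ⟨c * x, by rw [smul_eq_mul, Subring.coe_mul, hx, map_mul, hc]; ring⟩

section aux

open Pool.Agent.H8.Omg Finset

noncomputable def q (k : ℕ) : R := if k % 2 = 0 ∧ k ≠ 0 then e (k / 2) ^ 2 else 0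

theorem EH : PowerSeries.mk e * PowerSeries.mk h = 1 := by
  ext1 k
  rw [PowerSeries.coeff_mul, PowerSeries.coeff_one]
  cases k with
  | zero => simp [e, h]
  | succ k =>
    rw [Finset.Nat.sum_antidiagonal_succ, Finset.Nat.sum_antidiagonal_eq_sum_range_succ_mk,
      Finset.sum_range]
    simp only [PowerSeries.coeff_mk]
    rw [h]
    simp [e]

theorem om_e (k : ℕ) : om (e k) = h k := by
  cases k with
  | zero => simp [e, h]
  | succ k => simp [e, om]

theorem om_h (k : ℕ) : om (h k) = e k := by
  have h1 : PowerSeries.map (om : R →+* R) (PowerSeries.mk e) = PowerSeries.mk h := by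
    ext1 k; simp [om_e]
  have h2 := congrArg (PowerSeries.map (om : R →+* R)) EH
  rw [map_mul, h1, map_one] at h2
  have h3 : PowerSeries.map (om : R →+* R) (PowerSeries.mk h) = PowerSeries.mk e := by
    linear_combination (PowerSeries.mk e) * h2 -
      PowerSeries.map (om : R →+* R) (PowerSeries.mk h) * EH
  simpa using congrArg (PowerSeries.coeff k) h3

theorem om_om (x : R) : om (om x) = x := by
  have : om.comp om = AlgHom.id _ _ := by
    refine algHom_ext fun i => ?_
    have := om_h (i + 1)
    simpa [om, e] using this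
  exact DFunLike.congr_fun this x

theorem EE : PowerSeries.mk e * PowerSeries.mk e = 1 + PowerSeries.mk q := by
  ext1 k
  rw [PowerSeries.coeff_mul, ← sum_filter_add_sum_filter_not _ (fun p : ℕ × ℕ => p.1 = p.2),
    sum_involution (s := filter (fun p : ℕ × ℕ => ¬ p.1 = p.2) _) (fun p _ => p.swap)
      (fun p _ => by simp only [Prod.fst_swap, Prod.snd_swap]; rw [mul_comm]; exact add_self' _)
      (fun p hp _ hh => (mem_filter.1 hp).2 (congrArg Prod.snd hh))
      (fun p hp => by
        simp only [mem_filter, HasAntidiagonal.mem_antidiagonal, Prod.fst_swap, Prod.snd_swap] at hp ⊢; omega)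
      (fun p _ => rfl), add_zero, map_add, PowerSeries.coeff_one, PowerSeries.coeff_mk, q]
  by_cases hk : k % 2 = 0
  · have : filter (fun p : ℕ × ℕ => p.1 = p.2) (antidiagonal k) = {(k / 2, k / 2)} := by
      ext p
      simp only [mem_filter, HasAntidiagonal.mem_antidiagonal, mem_singleton, Prod.ext_iff]; omega
    rw [this, sum_singleton]
    by_cases h0 : k = 0
    · subst h0; simp [e]
    · simp [h0, hk, pow_two]
  · have : filter (fun p : ℕ × ℕ => p.1 = p.2) (antidiagonal k) = ∅ := by
      ext p
      simp only [mem_filter, HasAntidiagonal.mem_antidiagonal, notMem_empty, iff_false]; omega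
    rw [this, if_neg (by omega), if_neg (by omega)]
    simp

theorem two_ps : (2 : PowerSeries R) = 0 := by
  have := congrArg (PowerSeries.C (R := R)) two_eq
  rwa [map_ofNat, map_zero] at this

theorem de (k : ℕ) : e k + om (e k) = ∑ p ∈ antidiagonal k, h p.1 * q p.2 := by
  have : PowerSeries.mk e + PowerSeries.mk h = PowerSeries.mk h * PowerSeries.mk q := by
    linear_combination PowerSeries.mk h * EE - PowerSeries.mk e * EH + PowerSeries.mk h * two_ps
  have := congrArg (PowerSeries.coeff k) this
  simpa [om_e, PowerSeries.coeff_mul] using this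

theorem q_eq (k : ℕ) : q k = ∑ p ∈ antidiagonal k, e p.1 * (e p.2 + om (e p.2)) := by
  have : PowerSeries.mk q = PowerSeries.mk e * (PowerSeries.mk e + PowerSeries.mk h) := by
    linear_combination - EE - EH - two_ps
  have := congrArg (PowerSeries.coeff k) this
  simpa [om_e, PowerSeries.coeff_mul] using this

theorem d_mul (a b : R) : a * b + om (a * b) =
    a * (b + om b) + b * (a + om a) + (a + om a) * (b + om b) := by
  rw [map_mul]
  linear_combination (- a * b - a * om b - b * om a) * two_eq

theorem q_J (k : ℕ) : q k ∈ J := by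
  unfold q
  split_ifs with hk
  · obtain ⟨j, hj⟩ : ∃ j, k / 2 = j + 1 := ⟨k / 2 - 1, by omega⟩
    rw [hj]
    exact Ideal.subset_span ⟨j, rfl⟩
  · exact zero_mem _

theorem d_J (x : R) : x + om x ∈ J := by
  induction x using MvPolynomial.induction_on with
  | C a =>
    have : om (C a) = C a := om.commutes a
    rw [this, add_self']; exact zero_mem _
  | add a b ha hb =>
    have := add_mem ha hb
    rwa [show a + om a + (b + om b) = a + b + om (a + b) by rw [map_add]; ring] at this
  | mul_X a i ha =>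
    have hX : X i + om (X i) ∈ J := by
      have := de (i + 1)
      rw [e] at this
      rw [this]
      exact sum_mem fun p _ => Ideal.mul_mem_left _ _ (q_J _)
    rw [d_mul]
    exact add_mem (add_mem (Ideal.mul_mem_left _ _ hX) (Ideal.mul_mem_left _ _ ha))
      (Ideal.mul_mem_left _ _ hX)

theorem d_S (x : R) : x + om x ∈ S := by
  show om _ = _
  rw [map_add, om_om, add_comm]

theorem map_I : I.map S.subtype = J := by
  refine le_antisymm (Ideal.map_le_iff_le_comap.2 ?_) (Ideal.span_le.2 ?_)
  · rintro s ⟨x, hx⟩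
    show (s : R) ∈ J
    rw [hx]; exact d_J x
  · rintro _ ⟨i, rfl⟩
    have : q (2 * (i + 1)) = X i ^ 2 := by
      rw [q, if_pos (by omega), show 2 * (i + 1) / 2 = i + 1 by omega, e]
    show X i ^ 2 ∈ I.map S.subtype
    rw [← this, q_eq]
    exact sum_mem fun p _ => Ideal.mul_mem_left _ _
      (Ideal.mem_map_of_mem S.subtype (I := I) (x := ⟨_, d_S (e p.2)⟩) ⟨e p.2, rfl⟩)

theorem d_pow {n : ℕ} {x : R} (hx : x ∈ J ^ n) : ∃ s ∈ I ^ (n + 1), (s : R) = x + om x := by
  rw [← map_I, ← Ideal.map_pow] at hx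
  suffices ∀ r, ∃ s ∈ I ^ (n + 1), (s : R) = r * x + om (r * x) by simpa using this 1
  induction hx using Submodule.span_induction with
  | mem y hy =>
    obtain ⟨t, ht, rfl⟩ := hy
    intro r
    refine ⟨t * ⟨_, d_S r⟩, ?_, ?_⟩
    · rw [pow_succ]; exact Ideal.mul_mem_mul ht ⟨r, rfl⟩
    · have : om t = t := t.2
      simp only [Subring.coe_mul, Subring.subtype_apply, map_mul, this]; ring
  | zero => exact fun r => ⟨0, zero_mem _, by simp⟩
  | add u v _ _ hu hv =>
    intro r
    obtain ⟨s, hs, e1⟩ := hu r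
    obtain ⟨t, ht, e2⟩ := hv r
    exact ⟨s + t, add_mem hs ht, by rw [Subring.coe_add, e1, e2, mul_add, map_add]; ring⟩
  | smul c u _ hu =>
    intro r
    simpa [mul_assoc] using hu (r * c)

theorem h_G (k : ℕ) : h k ∈ G k := by
  induction k using Nat.strong_induction_on with
  | _ k ih =>
    cases k with
    | zero => rw [h]; exact G_one
    | succ k =>
      rw [h]
      refine neg_mem (sum_mem fun i _ => G_mul ?_ (G_X i) (ih (k - i) (by omega)))
      have := i.2
      push_cast; omega

theorem h_G' (k : ℕ) : h (k + 1) ∈ G k := by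
  rw [h]
  refine neg_mem (sum_mem fun i _ => G_mul ?_ (G_X i) (h_G (k - i)))
  have := i.2
  omega

theorem q_G (k : ℕ) : q k ∈ G (k - 2) := by
  unfold q
  split_ifs with hk
  · obtain ⟨j, hj⟩ : ∃ j, k / 2 = j + 1 := ⟨k / 2 - 1, by omega⟩
    rw [hj, pow_two]
    exact G_mul (by omega) (G_X j) (G_X j)
  · exact zero_mem _

def Good (x : R) (m : ℤ) : Prop :=
  x ∈ G m ∧ x + om x ∈ G (m - 1) ∧ x + om x + dd x ∈ G (m - 2)

theorem good_one : Good 1 0 := ⟨G_one, by simp [add_self'], by simp [add_self']⟩

theorem good_mul {a b : R} {m n : ℤ} (ha : Good a m) (hb : Good b n) : Good (a * b) (m + n) := by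
  refine ⟨G_mul le_rfl ha.1 hb.1, ?_, ?_⟩
  · rw [d_mul]
    exact add_mem (add_mem (G_mul (by omega) ha.1 hb.2.1) (G_mul (by omega) hb.1 ha.2.1))
      (G_mul (by omega) ha.2.1 hb.2.1)
  · have : a * b + om (a * b) + dd (a * b) = a * (b + om b + dd b) + b * (a + om a + dd a) +
        (a + om a) * (b + om b) := by
      rw [d_mul, Derivation.leibniz, smul_eq_mul, smul_eq_mul]; ring
    rw [this]
    exact add_mem (add_mem (G_mul (by omega) ha.1 hb.2.2) (G_mul (by omega) hb.1 ha.2.2))
      (G_mul (by omega) ha.2.1 hb.2.1)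

theorem good_X (i : ℕ) : Good (X i) i := by
  have h1 := de (i + 1)
  rw [e, Finset.Nat.sum_antidiagonal_succ, h, one_mul] at h1
  have h2 : ∑ p ∈ antidiagonal i, h (p.1 + 1) * q p.2 ∈ G (i - 2) :=
    sum_mem fun p hp => G_mul (by have := HasAntidiagonal.mem_antidiagonal.1 hp; omega) (h_G' _) (q_G _)
  have h3 : dd (X i) = q (i + 1) := by
    rw [dd_X, q]
    by_cases hi : i % 2 = 1
    · rw [if_pos hi, if_pos (by omega), show (i + 1) / 2 = i / 2 + 1 by omega, e]
    · rw [if_neg hi, if_neg (by omega)]
  refine ⟨G_X i, ?_, ?_⟩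
  · rw [h1]
    exact add_mem (G_mono (by push_cast; omega) (q_G _)) (G_mono (by omega) h2)
  · rw [h1, h3, add_right_comm, add_self', zero_add]; exact h2

theorem good_mon (a : ℕ →₀ ℕ) : Good (monomial a 1) (nu a) := by
  induction a using Finsupp.induction_linear with
  | zero => simpa [nu] using good_one
  | add a b ha hb => simpa [nu_add, monomial_mul] using good_mul ha hb
  | single i k =>
    rw [← X_pow_eq_monomial, nu_single]
    induction k with
    | zero => simpa using good_one
    | succ k ih => simpa [pow_succ, mul_add] using good_mul ih (good_X i)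

theorem d_G {m : ℤ} {x : R} (hx : x ∈ G m) : x + om x + dd x ∈ G (m - 2) :=
  Sp_lin (LinearMap.id + om.toLinearMap + dd.toLinearMap)
    (fun a ha => G_mono (by omega) (good_mon a).2.2) hx

theorem exact_pow (n m : ℕ) : ∀ x : R, x ∈ J ^ (n + 1) → om x = x → x ∈ G (m - 1) →
    ∃ y ∈ J ^ n, x = y + om y := by
  induction m with
  | zero =>
    intro x _ _ hx
    exact ⟨0, zero_mem _, by simpa using Sp_false (fun a ha => by omega) hx⟩
  | succ m ih =>
    intro x hJ hx hG
    have h1 := homotopy (Sp_mono (fun a ha => by omega) ((J_pow_iff _ _).1 hJ))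
    have hy := kap_J hJ
    obtain ⟨s, hs, es⟩ := d_pow hy
    have hs' : (s : R) ∈ J ^ (n + 1) := by
      rw [← map_I, ← Ideal.map_pow]; exact Ideal.mem_map_of_mem S.subtype hs
    have h2 := d_G hG
    rw [hx, add_self', zero_add] at h2
    have h3 : x + s = kap (dd x) + (kap x + om (kap x) + dd (kap x)) := by
      rw [es]; linear_combination - h1
    obtain ⟨y, hy', ey⟩ := ih (x + s) (add_mem hJ hs') (by rw [map_add, hx, s.2]) (by
      rw [h3]
      exact add_mem (G_mono (by push_cast; omega) (kap_G h2))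
        (G_mono (by push_cast; omega) (d_G (kap_G hG))))
    refine ⟨y + kap x, add_mem hy' hy, ?_⟩
    rw [map_add]
    linear_combination ey + es - (s : R) * two_eq

end aux

theorem result (n : ℕ) (hn : 1 ≤ n) :
    Ideal.comap S.subtype (Ideal.map S.subtype (I ^ n)) = I ^ n := by
  refine le_antisymm (fun x hx => ?_) Ideal.le_comap_map
  obtain ⟨n, rfl⟩ : ∃ k, n = k + 1 := ⟨n - 1, by omega⟩
  rw [Ideal.mem_comap, Ideal.map_pow, map_I] at hx
  obtain ⟨m, hm⟩ := Pool.Agent.H8.Omg.G_ex x
  obtain ⟨y, hy, ey⟩ := exact_pow n m x hx x.2 hm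
  obtain ⟨s, hs, es⟩ := d_pow hy
  rwa [show x = s from Subtype.ext (ey.trans es.symm)]

end Pool.Agent.Results.MP_628479_al.Transverse
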